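import Mathlib
import Pool.Agent.Lib.helper13.TangA

set_option autoImplicit false

namespace Pool.Agent.Results.MP_dabcc5_co.Counter

open Pool.Agent.Lib.H13Tang
open scoped Matroid

/-- The critical exponent, the least positive `c` with `p(M; q ^ c) > 0`, is at most `k`. -/
def CritExpLE {α : Type} [Finite α] (M : Matroid α) (q k : ℕ) : Prop :=
  ∃ c, 1 ≤ c ∧ c ≤ k ∧ 0 < charPoly M ((q : ℤ) ^ c)

/-- Tangential `k`-blocks over the finite field `F`. -/
def IsTangentialBlock {α : Type} [Finite α] (F : Type) [Field F] [Fintype F] (k : ℕ)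
    (M : Matroid α) : Prop :=
  Simple M ∧ Representable F M ∧ ¬ CritExpLE M (Fintype.card F) k ∧
    ∀ N : Matroid α, N.IsStrictMinor M → N.Loopless → CritExpLE N (Fintype.card F) k

/-- The lattice of flats has a maximal chain consisting of modular flats. -/
def Supersolvable {α : Type} (M : Matroid α) : Prop :=
  ∃ Ch : Set (Set α), Maximal (fun Dh : Set (Set α) => IsChain (· ⊆ ·) Dh ∧ ∀ X ∈ Dh, M.IsFlat X) Ch ∧
    ∀ X ∈ Ch, IsModularFlat M X

theorem exists_hyperplane {α : Type} [Finite α] {M : Matroid α} (h : Supersolvable M)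
    (h0 : ¬ M.E ⊆ M.closure ∅) : ∃ H, IsModularFlat M H ∧ rk M H + 1 = rk M M.E := by
  obtain ⟨Ch, hmax, hmod⟩ := h
  have hins : ∀ G, M.IsFlat G → (∀ X ∈ Ch, X ⊆ G ∨ G ⊆ X) → G ∈ Ch := fun G hG hc =>
    hmax.2 (y := insert G Ch) ⟨hmax.1.1.insert fun X hX _ => (hc X hX).symm, by
      rintro X (rfl | hX)
      exacts [hG, hmax.1.2 X hX]⟩ (Set.subset_insert _ _) (Set.mem_insert _ _)
  have hbot : M.closure ∅ ∈ Ch := hins _ (M.isFlat_closure _) fun X hX =>
    Or.inr ((hmax.1.2 X hX).closure ▸ M.closure_subset_closure (Set.empty_subset X))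
  obtain ⟨H, ⟨hH, hHE⟩, hHmax⟩ := Set.exists_max_image {X | X ∈ Ch ∧ ¬ M.E ⊆ X} (rk M)
    (Set.toFinite _) ⟨_, hbot, h0⟩
  have hf := hmax.1.2 H hH
  obtain ⟨a, haE, haH⟩ := Set.not_subset.1 hHE
  have h1 := rk_insert haE (X := H) (by rwa [hf.closure])
  have hsub : H ⊆ M.closure (insert a H) :=
    (Set.subset_insert _ _).trans (M.subset_closure _ (Set.insert_subset haE hf.subset_ground))
  have h2 : M.closure (insert a H) ∈ Ch := hins _ (M.isFlat_closure _) fun X hX => by
    by_cases hXE : M.E ⊆ X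
    · exact Or.inr ((M.closure_subset_ground _).trans hXE)
    · refine Or.inl (subset_trans ?_ hsub)
      by_contra hXH
      have h3 : H ⊆ X := (hmax.1.1.total hX hH).resolve_left hXH
      have := rk_lt_of_flat hf (hmax.1.2 X hX).subset_ground ⟨h3, hXH⟩
      have := hHmax X ⟨hX, hXE⟩
      omega
  refine ⟨H, hmod H hH, ?_⟩
  by_cases h3 : M.E ⊆ M.closure (insert a H)
  · have := rk_mono M h3
    have := rk_mono M (Set.insert_subset haE hf.subset_ground)
    rw [rk_closure] at *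
    omega
  · have := hHmax _ ⟨h2, h3⟩
    rw [rk_closure] at this
    omega

theorem result : ∃ (F : Type) (_ : Field F) (_ : Fintype F) (k : ℕ) (α : Type) (_ : Finite α)
    (M : Matroid α), 1 ≤ k ∧ IsTangentialBlock F k M ∧ Normal M (Fintype.card F) k ∧
      ¬ Supersolvable M := by
  have h4 := heavy_pA.mono (show 4 ≤ 6 by norm_num)
  refine ⟨ZMod 7, inferInstance, inferInstance, 1, Sym2 (Fin 8), inferInstance,
    EM (Submodule.span (ZMod 7) {fun i => (pA i : ZMod 7)}), le_rfl,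
    ⟨h4.simple, EM_rep.representable, ?_, fun N hN hl => ?_⟩, ?_, fun hS => ?_⟩
  · rintro ⟨c, -, hc, h⟩
    exact EM_block (k := 1) (by rw [ZMod.card]; norm_num) ⟨c, hc, h⟩
  · obtain ⟨C, D, hC, hD, -, rfl⟩ := hN.isMinor.exists_eq_contract_delete_disjoint
    refine ⟨1, le_rfl, le_rfl, tangent_pA.minor_pos h4 hC hD ?_ fun e he =>
      (Matroid.isNonloop_of_loopless he).indep⟩
    by_contra h0
    rw [Set.not_nonempty_iff_eq_empty, Set.union_empty_iff] at h0
    exact hN.ne (by simp [h0.1, h0.2])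
  · rw [ZMod.card]
    exact EM_normal (q := 7) (k := 1) h4
  · obtain ⟨H, hH, hr⟩ := exists_hyperplane hS fun h =>
      (h4.simple.isNonloop (mem_EM.2 (show (0 : Fin 8) ≠ 1 by decide))).not_isLoop
        (h (mem_EM.2 (show (0 : Fin 8) ≠ 1 by decide)))
    exact no_modular_pA H hH hr

end Pool.Agent.Results.MP_dabcc5_co.Counter
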